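import Pool.Agent.W448.FF.Kernel

/-! FF-IND (owner helper448): local minimality induction. -/

set_option autoImplicit false

namespace Pool.Agent.W216.FF

open Pool.Agent.W448.FF

variable {V : Type}

theorem all3_ac (G : OG V) {f : ℕ → ℕ → Bool} (h : all3 f = true) (u v : V) :
    f (ac G u v) (ac G v u) = true := by
  classical
  unfold all3 at h
  rw [Bool.and_eq_true, Bool.and_eq_true] at h
  obtain ⟨h0, h1, h2⟩ := h
  unfold ac
  by_cases huv : G.arc u v
  · have hvu := G.asymm u v huv
    rw [if_pos huv, if_neg hvu, if_pos huv]
    exact h1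
  · by_cases hvu : G.arc v u
    · rw [if_neg huv, if_pos hvu, if_pos hvu]
      exact h2
    · rw [if_neg huv, if_neg hvu, if_neg hvu, if_neg huv]
      exact h0

theorem ac_one (G : OG V) {u v : V} (h : ac G u v = 1) : G.arc u v := by
  classical
  unfold ac at h
  by_contra hn
  rw [if_neg hn] at h
  split_ifs at h
  all_goals omega

theorem ac_zero (G : OG V) {u v : V} (h : ac G u v = 0) : ¬ G.adj u v := by
  classical
  unfold ac at h
  unfold OG.adj
  by_cases h1 : G.arc u v
  · rw [if_pos h1] at h
    omega
  · rw [if_neg h1] at h
    by_cases h2 : G.arc v u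
    · rw [if_pos h2] at h
      omega
    · exact fun hc => hc.elim h1 h2

theorem ac_le (G : OG V) (u v : V) : ac G u v ≤ 2 := by
  classical
  unfold ac
  split_ifs <;> omega

theorem c4_false {G : OG V} (hG : NoC4 G) (u v w z : V) :
    c4 (ac G u v) (ac G v w) (ac G w z) (ac G z u) (ac G u w) (ac G v z) = false := by
  rw [Bool.eq_false_iff]
  intro h
  unfold c4 at h
  simp only [Bool.and_eq_true, Nat.beq_eq] at h
  obtain ⟨h1, h2, h3, h4, h5, h6⟩ := h
  rcases hG u v w z (ac_one G h1) (ac_one G h2) (ac_one G h3) (ac_one G h4) with h | h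
  · exact ac_zero G h5 h
  · exact ac_zero G h6 h

/-- the code of the first four vertices -/
noncomputable def k4 (G : OG V) (a b c d : V) : ℕ :=
  3 * (3 * (3 * (3 * (3 * ac G a b + ac G a c) + ac G b c) + ac G a d) + ac G b d) + ac G c d

/-- the code of a tuple -/
noncomputable def k5 (G : OG V) (a b c d e : V) : ℕ :=
  3 * (3 * (3 * (3 * k4 G a b c d + ac G a e) + ac G b e) + ac G c e) + ac G d e

theorem k5_lt (G : OG V) {a b c d e a' b' c' d' : V} (h : k4 G a' b' c' d' < k4 G a b c d) :
    k5 G a' b' c' d' e < k5 G a b c d e := by
  unfold k5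
  have h1 := ac_le G a' e
  have h2 := ac_le G b' e
  have h3 := ac_le G c' e
  have h4 := ac_le G d' e
  omega

theorem ind : S_IND := by
  intro F hF V G hG hI
  obtain ⟨i1, i2, i3, i4⟩ := hI
  have key : ∀ n a b c d e, k5 G a b c d e = n → onV F G a b c d e = true := by
    intro n
    induction n using Nat.strong_induction_on with
    | _ n ih =>
      intro a b c d e hn
      have step : ∀ a' b' c' d' e', k5 G a' b' c' d' e' < k5 G a b c d e →
          onV F G a' b' c' d' e' = true := fun a' b' c' d' e' h => ih _ (hn ▸ h) a' b' c' d' e' rfl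
      unfold chk at hF
      have h1 := all3_ac G (all3_ac G (all3_ac G (all3_ac G (all3_ac G (all3_ac G hF a b) a c)
        b c) a d) b d) c d
      unfold chk4 at h1
      rw [Bool.or_eq_true, Bool.or_eq_true] at h1
      rcases h1 with h1 | h1 | h1
      · rw [Bool.not_eq_true', Bool.eq_false_iff] at h1
        simp only [lm4, Nat.add_eq, Nat.mul_eq, Ne, Bool.and_eq_true, Nat.ble_eq, not_and_or,
          not_le] at h1
        rcases h1 with h1 | h1 | h1
        · rw [← i1]
          exact step b a c d e (k5_lt G h1)
        · rw [← i2]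
          exact step a c b d e (k5_lt G h1)
        · rw [← i3]
          exact step a b d c e (k5_lt G h1)
      · exfalso
        simp only [hc4, c4_false hG, Bool.or_false, Bool.false_eq_true] at h1
      · have h2 := all3_ac G (all3_ac G (all3_ac G (all3_ac G h1 a e) b e) c e) d e
        unfold chk5 at h2
        rw [Bool.or_eq_true, Bool.or_eq_true] at h2
        rcases h2 with h2 | h2 | h2
        · rw [Bool.not_eq_true', Bool.eq_false_iff] at h2
          simp only [lm5, Nat.add_eq, Nat.mul_eq, Ne, Bool.and_eq_true, Nat.ble_eq, not_and_or,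
            not_le] at h2
          rcases h2 with h2 | h2 | h2 | h2
          · rw [← i4]
            exact step a b c e d h2
          · rw [← i1]
            exact step b a c d e h2
          · rw [← i2]
            exact step a c b d e h2
          · rw [← i3]
            exact step a b d c e h2
        · exfalso
          simp only [hc5, c4_false hG, Bool.or_false, Bool.false_eq_true] at h2
        · exact h2
  intro a b c d e
  exact key _ a b c d e rfl

end Pool.Agent.W216.FF
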